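import Mathlib

open Set Filter Topology Real
open scoped NNReal

namespace Pool.Agent.Results.MP_3a3e96_an.Yes

/-- `θ` solves the sinusoidal Winfree model on `[0,∞)`. -/
def IsSol {N : ℕ} (ω : Fin N → ℝ) (κ : ℝ) (θ : ℝ → Fin N → ℝ) : Prop :=
  ∀ i, ∀ t ≥ 0, HasDerivWithinAt (fun s => θ s i)
    (ω i - κ / N * (∑ j, (1 + cos (θ t j))) * sin (θ t i)) (Ici 0) t

/-- `C`-partial oscillator locking. -/
def Locking {N : ℕ} (C : Finset (Fin N)) (θ : ℝ → Fin N → ℝ) : Prop :=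
  (∀ i ∈ C, ∀ j ∈ C, ∃ M, ∀ t ≥ 0, |θ t i - θ t j| ≤ M) ∧
    ∀ i ∈ C, ¬ Tendsto (fun t => θ t i / t) atTop (𝓝 0)

/-- `B`-partial oscillator death. -/
def Death {N : ℕ} (B : Finset (Fin N)) (θ : ℝ → Fin N → ℝ) : Prop :=
  ∀ i ∈ B, ∃ M, ∀ t ≥ 0, |θ t i| ≤ M

lemma global_sol {E : Type*} [NormedAddCommGroup E] [NormedSpace ℝ E] [CompleteSpace E]
    {F : E → E} {K L : ℝ≥0} (hK : LipschitzWith K F) (hL : ∀ x, ‖F x‖ ≤ L) (x₀ : E) :
    ∃ θ : ℝ → E, θ 0 = x₀ ∧ ∀ t, HasDerivAt θ (F (θ t)) t := by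
  have h : ∀ n : ℕ, ∃ α : ℝ → E, α 0 = x₀ ∧
      ∀ t ∈ Ioo (-(n + 1 : ℝ)) (n + 1), HasDerivAt α (F (α t)) t := by
    intro n
    have hn : (0 : ℝ) ≤ n + 1 := by positivity
    have : IsPicardLindelof (fun _ => F) (⟨0, by constructor <;> linarith⟩ :
        Icc (-(n + 1 : ℝ)) (n + 1)) x₀ (L * (n + 1)) 0 L K :=
      IsPicardLindelof.of_time_independent (fun x _ => hL x) hK.lipschitzOnWith (by simp)
    obtain ⟨α, h0, hα⟩ := this.exists_eq_forall_mem_Icc_hasDerivWithinAt₀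
    exact ⟨α, h0, fun t ht => (hα t (Ioo_subset_Icc_self ht)).hasDerivAt (Icc_mem_nhds ht.1 ht.2)⟩
  choose α h0 hα using h
  have hu : ∀ m n : ℕ, m ≤ n → EqOn (α m) (α n) (Ioo (-(m + 1 : ℝ)) (m + 1)) := by
    intro m n hmn
    have hm : (0 : ℝ) < m + 1 := by positivity
    have hmn' : (m : ℝ) ≤ n := by exact_mod_cast hmn
    exact ODE_solution_unique_of_mem_Ioo (v := fun _ => F) (s := fun _ => univ) (K := K) (t₀ := 0)
      (fun _ _ => hK.lipschitzOnWith) ⟨by linarith, hm⟩ (fun t ht => ⟨hα m t ht, trivial⟩)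
      (fun t ht => ⟨hα n t ⟨by linarith [ht.1], by linarith [ht.2]⟩, trivial⟩)
      (by rw [h0, h0])
  have hm : ∀ t : ℝ, t ∈ Ioo (-((⌊|t|⌋₊ : ℝ) + 1)) (⌊|t|⌋₊ + 1) := fun t =>
    abs_lt.mp (Nat.lt_floor_add_one |t|)
  refine ⟨fun t => α ⌊|t|⌋₊ t, h0 _, fun t => ?_⟩
  refine (hα _ t (hm t)).congr_of_eventuallyEq ?_
  filter_upwards [Ioo_mem_nhds (hm t).1 (hm t).2] with s hs
  rcases le_total ⌊|s|⌋₊ ⌊|t|⌋₊ with h | h
  · exact hu _ _ h (hm s)
  · exact (hu _ _ h hs).symm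

lemma barrier {ι : Type*} [Finite ι] (u u' : ι → ℝ → ℝ) (c : ℝ)
    (hd : ∀ k, ∀ t ≥ 0, HasDerivWithinAt (u k) (u' k t) (Ici 0) t) (h0 : ∀ k, u k 0 < c)
    (h : ∀ t ≥ 0, (∀ l, u l t ≤ c) → ∀ k, u k t = c → u' k t < 0) : ∀ t ≥ 0, ∀ k, u k t < c := by
  by_contra hc
  push Not at hc
  set S : Set ℝ := ⋃ k, (Ici 0 ∩ u k ⁻¹' Ici c) with hS
  have hne : S.Nonempty := by
    obtain ⟨t, ht, k, hk⟩ := hc
    exact ⟨t, mem_iUnion.mpr ⟨k, ht, hk⟩⟩
  have hcl : IsClosed S := isClosed_iUnion_of_finite fun k =>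
    ContinuousOn.preimage_isClosed_of_isClosed (fun t ht => (hd k t ht).continuousWithinAt)
      isClosed_Ici isClosed_Ici
  have hbd : BddBelow S := ⟨0, fun t ht => by
    obtain ⟨k, hk⟩ := mem_iUnion.mp ht; exact hk.1⟩
  obtain ⟨k, hT0, hk⟩ := mem_iUnion.mp (hcl.csInf_mem hne hbd)
  set T := sInf S
  have hT : 0 < T := lt_of_le_of_ne hT0 fun e => by
    rw [← e] at hk; exact absurd hk (not_le.mpr (h0 k))
  have hlt : ∀ᶠ t in 𝓝[<] T, ∀ l, u l t < c := by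
    filter_upwards [Ioo_mem_nhdsLT hT] with t ht l
    by_contra h'
    exact absurd (csInf_le hbd (mem_iUnion.mpr ⟨l, ht.1.le, not_lt.mp h'⟩)) (not_le.mpr ht.2)
  have hD : ∀ l, HasDerivAt (u l) (u' l T) T := fun l =>
    (hd l T hT.le).hasDerivAt (Ici_mem_nhds hT)
  have hle : ∀ l, u l T ≤ c := fun l =>
    le_of_tendsto ((hD l).continuousAt.tendsto.mono_left nhdsWithin_le_nhds)
      (hlt.mono fun t ht => (ht l).le)
  have hkT : u k T = c := le_antisymm (hle k) hk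
  have hneg := h T hT.le hle k hkT
  have hs := (hasDerivAt_iff_tendsto_slope.mp (hD k)).mono_left (nhdsLT_le_nhdsNE T)
  obtain ⟨t, ⟨h1, h2⟩, h3⟩ := (((hs.eventually (gt_mem_nhds hneg)).and hlt).and
    self_mem_nhdsWithin).exists
  rw [slope_def_field, hkT] at h1
  exact absurd h1 (not_lt.mpr (div_nonneg_of_nonpos (by linarith [h2 k]) (sub_nonpos.mpr (le_of_lt h3))))

lemma sin_sub_ge (x δ : ℝ) (h0 : 0 < δ) (h1 : δ ≤ 1) :
    δ * cos x - δ ^ 2 ≤ sin x - sin (x - δ) := by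
  rw [sin_sub]
  have a1 := one_sub_sq_div_two_le_cos (x := δ)
  have a2 := cos_le_one δ
  have a3 := sin_gt_sub_cube h0
  have a4 := sin_lt h0
  have b1 : -(1 - cos δ) ≤ sin x * (1 - cos δ) := by nlinarith [neg_one_le_sin x]
  have b2 : cos x * (δ - sin δ) ≤ δ - sin δ := by nlinarith [cos_le_one x]
  have b3 : δ ^ 3 ≤ δ ^ 2 := by nlinarith [sq_nonneg δ]
  nlinarith

section
variable {N : ℕ} (hN : 1 ≤ N)
include hN

lemma I_bounds (x : Fin N → ℝ) :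
    0 ≤ (∑ j, (1 + cos (x j))) / N ∧ (∑ j, (1 + cos (x j))) / N ≤ 2 := by
  have hN' : (0 : ℝ) < N := by exact_mod_cast hN
  refine ⟨div_nonneg (Finset.sum_nonneg fun j _ => by linarith [neg_one_le_cos (x j)]) hN'.le, ?_⟩
  rw [div_le_iff₀ hN']
  calc _ ≤ ∑ _j : Fin N, (2 : ℝ) := Finset.sum_le_sum fun j _ => by linarith [cos_le_one (x j)]
    _ = _ := by simp [mul_comm]

lemma exists_sol (ω x₀ : Fin N → ℝ) : ∃ θ : ℝ → Fin N → ℝ, θ 0 = x₀ ∧ IsSol ω (1 / 100) θ := by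
  have hN' : (0 : ℝ) < N := by exact_mod_cast hN
  set F : (Fin N → ℝ) → Fin N → ℝ :=
    fun x i => ω i - 1 / 100 * ((∑ j, (1 + cos (x j))) / N) * sin (x i) with hF
  have hK : LipschitzWith 1 F := by
    refine LipschitzWith.of_dist_le_mul fun x y => ?_
    rw [NNReal.coe_one, one_mul, dist_pi_le_iff dist_nonneg]
    intro i
    have h1 : ∀ j, |x j - y j| ≤ dist x y := fun j => dist_le_pi_dist x y j
    have h2 : |(∑ j, (1 + cos (x j))) / N - (∑ j, (1 + cos (y j))) / N| ≤ dist x y := by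
      rw [← sub_div, ← Finset.sum_sub_distrib, abs_div, abs_of_pos hN', div_le_iff₀ hN']
      calc _ ≤ ∑ _j : Fin N, dist x y := (Finset.abs_sum_le_sum_abs _ _).trans
            (Finset.sum_le_sum fun j _ => by
              rw [add_sub_add_left_eq_sub]; exact (abs_cos_sub_cos_le _ _).trans (h1 j))
        _ = _ := by simp [mul_comm]
    have h3 := (abs_sin_sub_sin_le (x i) (y i)).trans (h1 i)
    obtain ⟨b1, b2⟩ := I_bounds hN y
    rw [Real.dist_eq]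
    simp only [hF]
    set a := (∑ j, (1 + cos (x j))) / N
    set b := (∑ j, (1 + cos (y j))) / N
    have e : ω i - 1 / 100 * a * sin (x i) - (ω i - 1 / 100 * b * sin (y i)) =
      -(1 / 100) * ((a - b) * sin (x i) + b * (sin (x i) - sin (y i))) := by ring
    have h4 : |(a - b) * sin (x i)| ≤ dist x y := by
      rw [abs_mul]; exact (mul_le_of_le_one_right (abs_nonneg _) (abs_sin_le_one _)).trans h2
    have h5 : |b * (sin (x i) - sin (y i))| ≤ 2 * dist x y := by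
      rw [abs_mul, abs_of_nonneg b1]; gcongr
    have h6 := abs_add_le ((a - b) * sin (x i)) (b * (sin (x i) - sin (y i)))
    rw [e, abs_mul, abs_neg, abs_of_pos (by norm_num : (0 : ℝ) < 1 / 100)]
    linarith [dist_nonneg (x := x) (y := y)]
  have hL : ∀ x, ‖F x‖ ≤ (‖ω‖₊ + 1 : ℝ≥0) := by
    intro x
    rw [pi_norm_le_iff_of_nonneg (by positivity)]
    intro i
    obtain ⟨b1, b2⟩ := I_bounds hN x
    have h1 : |ω i| ≤ ‖ω‖ := norm_le_pi_norm ω i
    have h2 := abs_le.mp (abs_sin_le_one (x i))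
    simp only [hF, Real.norm_eq_abs, NNReal.coe_add, coe_nnnorm, NNReal.coe_one]
    rw [abs_le] at h1 ⊢
    constructor <;> nlinarith
  obtain ⟨θ, h0, hθ⟩ := global_sol hK hL x₀
  refine ⟨θ, h0, fun i t _ => ?_⟩
  refine ((hasDerivAt_pi.mp (hθ t) i).hasDerivWithinAt).congr_deriv ?_
  simp only [hF]; ring

lemma death {ω : Fin N → ℝ} {B : Finset (Fin N)} (hB : 1 / 100 * (N : ℝ) ≤ B.card)
    (hω : ∀ i ∈ B, ω i ∈ Icc (-(1 / 100000) : ℝ) (1 / 100000)) {θ : ℝ → Fin N → ℝ} (h0 : θ 0 = 0)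
    (hθ : IsSol ω (1 / 100) θ) : Death B θ := by
  have hN' : (0 : ℝ) < N := by exact_mod_cast hN
  have := barrier (ι := B) (fun i t => θ t i ^ 2) (fun i t => 2 * θ t i *
    (ω i - 1 / 100 / N * (∑ j, (1 + cos (θ t j))) * sin (θ t i))) ((π / 2) ^ 2)
    (fun i t ht => ((hθ i t ht).pow 2).congr_deriv (by simp)) (fun i => by simp only [h0, Pi.zero_apply]; nlinarith [pi_gt_three])
    fun t _ hl k hk => ?_
  · exact fun i hi => ⟨π / 2, fun t ht => abs_le_of_sq_le_sq (this t ht ⟨i, hi⟩).le (by positivity)⟩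
  have h1 : (B.card : ℝ) ≤ ∑ j, (1 + cos (θ t j)) := by
    calc (B.card : ℝ) = ∑ j, if j ∈ B then (1 : ℝ) else 0 := by simp
      _ ≤ _ := Finset.sum_le_sum fun j _ => by
        split_ifs with hj
        · have := abs_le.mp (abs_le_of_sq_le_sq (hl ⟨j, hj⟩) (by positivity))
          linarith [cos_nonneg_of_mem_Icc this]
        · linarith [neg_one_le_cos (θ t j)]
  have h2 : 1 / 10000 ≤ 1 / 100 / N * (∑ j, (1 + cos (θ t j))) := by
    rw [div_mul_eq_mul_div, le_div_iff₀ hN']; linarith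
  obtain ⟨h3, h4⟩ := hω k k.2
  rcases sq_eq_sq_iff_eq_or_eq_neg.mp hk with h | h
  · rw [h, sin_pi_div_two]; exact mul_neg_of_pos_of_neg (by positivity) (by linarith)
  · rw [h, sin_neg, sin_pi_div_two]
    exact mul_neg_of_neg_of_pos (by linarith [pi_pos]) (by linarith)

lemma locking {ω : Fin N → ℝ} {C : Finset (Fin N)} (hC : 9 / 10 * (N : ℝ) ≤ C.card)
    (hω : ∀ i ∈ C, ω i ∈ Icc (1 - 1 / 100000 : ℝ) (1 + 1 / 100000)) {θ : ℝ → Fin N → ℝ}
    (h0 : θ 0 = 0) (hθ : IsSol ω (1 / 100) θ) : Locking C θ := by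
  have hN' : (0 : ℝ) < N := by exact_mod_cast hN
  set I : ℝ → ℝ := fun t => (∑ j, (1 + cos (θ t j))) / N with hI
  set v : Fin N → ℝ → ℝ := fun i t => ω i - 1 / 100 * I t * sin (θ t i) with hv
  have hd : ∀ i, ∀ t ≥ 0, HasDerivWithinAt (fun s => θ s i) (v i t) (Ici 0) t := fun i t ht =>
    (hθ i t ht).congr_deriv (by simp only [hv, hI]; ring)
  have hvb : ∀ i ∈ C, ∀ t, |v i t - 1| ≤ 21 / 1000 := by
    intro i hi t
    obtain ⟨b1, b2⟩ := I_bounds hN (θ t)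
    obtain ⟨h3, h4⟩ := hω i hi
    have h2 := abs_le.mp (abs_sin_le_one (θ t i))
    simp only [hv, hI]
    rw [abs_le]
    constructor <;> nlinarith
  set s : ℝ → ℝ := fun x => (sin x + sin x * cos x / 2) / 100 with hs
  have hsb : ∀ x, -(1 / 50) ≤ s x ∧ s x ≤ 1 / 50 := by
    intro x
    have h1 := abs_le.mp (abs_sin_le_one x)
    have h2 := abs_le.mp (abs_cos_le_one x)
    simp only [hs]
    constructor <;> nlinarith
  have hsd : ∀ x, HasDerivAt s ((cos x + cos x ^ 2 - 1 / 2) / 100) x := fun x =>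
    (((hasDerivAt_sin x).add (((hasDerivAt_sin x).mul (hasDerivAt_cos x)).div_const 2)).div_const
      100).congr_deriv (by nlinarith [sin_sq_add_cos_sq x])
  have hup : ∀ x δ, δ * exp (s x) ≤ 1 / 60 → δ ≤ 1 / 50 := by
    intro x δ h
    by_contra h'
    nlinarith [add_one_le_exp (s x), (hsb x).1]
  have := barrier (ι := C × C) (fun p t => (θ t p.1 - θ t p.2) * exp (s (θ t p.1)))
    (fun p t => (v p.1 t - v p.2 t + (θ t p.1 - θ t p.2) *
      ((cos (θ t p.1) + cos (θ t p.1) ^ 2 - 1 / 2) / 100 * v p.1 t)) * exp (s (θ t p.1))) (1 / 60)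
    (fun p t ht => (((hd p.1 t ht).sub (hd p.2 t ht)).mul
      ((hsd _).comp_hasDerivWithinAt t (hd p.1 t ht)).exp).congr_deriv
        (by simp only [Function.comp, Pi.sub_apply]; ring))
    (fun p => by simp [h0]) fun t _ hl p hp => ?_
  · refine ⟨fun i hi j hj => ⟨1 / 50, fun t ht => abs_le.mpr ⟨?_, ?_⟩⟩, fun i hi ht => ?_⟩
    · linarith [hup _ _ (this t ht (⟨j, hj⟩, ⟨i, hi⟩)).le]
    · exact hup _ _ (this t ht (⟨i, hi⟩, ⟨j, hj⟩)).le
    · have hm : MonotoneOn (fun t => θ t i - t / 2) (Ici 0) := by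
        have hd' : ∀ t ≥ 0, HasDerivWithinAt (fun t => θ t i - t / 2) (v i t - 1 / 2) (Ici 0) t :=
          fun t ht => (hd i t ht).sub ((hasDerivAt_id t).div_const 2).hasDerivWithinAt
        refine monotoneOn_of_hasDerivWithinAt_nonneg (f' := fun t => v i t - 1 / 2) (convex_Ici 0)
          (fun t ht => (hd' t ht).continuousWithinAt)
          (fun t ht => (hd' t (interior_subset ht)).mono interior_subset) fun t _ => ?_
        linarith [(abs_le.mp (hvb i hi t)).1]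
      have : (1 / 2 : ℝ) ≤ 0 := by
        refine ge_of_tendsto ht ?_
        filter_upwards [eventually_gt_atTop 0] with t ht
        have := hm (le_refl (0 : ℝ)) ht.le ht.le
        simp only [h0, Pi.zero_apply] at this
        rw [le_div_iff₀ ht]; linarith
      norm_num at this
  obtain ⟨⟨i, hi⟩, ⟨j, hj⟩⟩ := p
  simp only at hp ⊢
  refine mul_neg_of_neg_of_pos ?_ (exp_pos _)
  have hcl : ∀ k ∈ C, |θ t k - θ t i| ≤ 1 / 50 := fun k hk => abs_le.mpr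
    ⟨by linarith [hup _ _ (hl (⟨i, hi⟩, ⟨k, hk⟩))], hup _ _ (hl (⟨k, hk⟩, ⟨i, hi⟩))⟩
  set δ := θ t i - θ t j with hδ
  have hδ2 : δ ≤ 1 / 50 := hup _ _ hp.le
  have hδ1 : 1 / 62 ≤ δ := by
    have h1 : δ = 1 / 60 * exp (-s (θ t i)) := by
      rw [← hp, mul_assoc, ← exp_add, add_neg_cancel, exp_zero, mul_one]
    have := add_one_le_exp (-s (θ t i))
    linarith [(hsb (θ t i)).2]
  have h1 := sin_sub_ge (θ t i) δ (by linarith) (by linarith)
  rw [show θ t i - δ = θ t j by rw [hδ]; ring] at h1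
  obtain ⟨b1, b2⟩ := I_bounds hN (θ t)
  change 0 ≤ I t at b1
  change I t ≤ 2 at b2
  have hc := abs_le.mp (abs_cos_le_one (θ t i))
  have h2 : cos (θ t i) + cos (θ t i) ^ 2 - 11 / 50 ≤ I t * cos (θ t i) := by
    simp only [hI]
    rw [div_mul_eq_mul_div, le_div_iff₀ hN', Finset.sum_mul]
    calc _ ≤ ∑ k, (cos (θ t i) + cos (θ t i) ^ 2 - 101 / 50 + if k ∈ C then (2 : ℝ) else 0) := by
          rw [Finset.sum_add_distrib]
          simp only [Finset.sum_const, Finset.card_univ, Fintype.card_fin, nsmul_eq_mul,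
            Finset.sum_ite_mem, Finset.univ_inter]
          nlinarith
      _ ≤ _ := Finset.sum_le_sum fun k _ => by
        have hk := abs_le.mp (abs_cos_le_one (θ t k))
        split_ifs with hkC
        · have := abs_le.mp ((abs_cos_sub_cos_le _ _).trans (hcl k hkC))
          nlinarith
        · nlinarith
  have h3 := abs_le.mp (hvb i hi t)
  have h4 : (cos (θ t i) + cos (θ t i) ^ 2 - 1 / 2) * v i t ≤
      cos (θ t i) + cos (θ t i) ^ 2 - 1 / 2 + 1 / 25 := by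
    have q1 : cos (θ t i) + cos (θ t i) ^ 2 - 1 / 2 ≤ 3 / 2 := by nlinarith
    have q2 : -(3 / 2) ≤ cos (θ t i) + cos (θ t i) ^ 2 - 1 / 2 := by nlinarith
    nlinarith
  have h5 : I t * (δ * cos (θ t i) - δ ^ 2) ≤ I t * (sin (θ t i) - sin (θ t j)) :=
    mul_le_mul_of_nonneg_left h1 b1
  have h6 : δ * (cos (θ t i) + cos (θ t i) ^ 2 - 11 / 50) ≤ δ * (I t * cos (θ t i)) :=
    mul_le_mul_of_nonneg_left h2 (by linarith)
  have h7 := mul_le_mul_of_nonneg_left h4 (show 0 ≤ δ by linarith)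
  have h8 : I t * δ ^ 2 ≤ δ / 25 := by nlinarith [sq_nonneg δ]
  have e : v i t - v j t = ω i - ω j - 1 / 100 * (I t * (sin (θ t i) - sin (θ t j))) := by
    simp only [hv]; ring
  rw [e]
  linarith [(hω i hi).2, (hω j hj).1]

end

theorem result : ∃ ρ₁ ρ₂ γ κ : ℝ, ρ₁ ∈ Ioc (0 : ℝ) 1 ∧ ρ₂ ∈ Ioc (0 : ℝ) 1 ∧ γ ∈ Ioc (0 : ℝ) 1 ∧
    ρ₁ + ρ₂ < 1 ∧ 0 < κ ∧
    ∀ N : ℕ, 1 ≤ N → ∀ (ω : Fin N → ℝ) (B C : Finset (Fin N)), Disjoint B C →
      ρ₁ * N ≤ B.card → ρ₂ * N ≤ C.card → (∀ i ∈ B, ω i ∈ Icc (-γ) γ) →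
      (∀ i ∈ C, ω i ∈ Icc (1 - γ) (1 + γ)) →
      ∃ Θ₀ : Fin N → ℝ, (∃ θ, θ 0 = Θ₀ ∧ IsSol ω κ θ) ∧
        ∀ θ, θ 0 = Θ₀ → IsSol ω κ θ → Death B θ ∧ Locking C θ :=
  ⟨1 / 100, 9 / 10, 1 / 100000, 1 / 100, by norm_num, by norm_num, by norm_num, by norm_num,
    by norm_num, fun _ hN ω _ _ _ hB hC h1 h2 => ⟨0, exists_sol hN ω 0, fun _ h0 hθ =>
      ⟨death hN hB h1 h0 hθ, locking hN hC h2 h0 hθ⟩⟩⟩

end Pool.Agent.Results.MP_3a3e96_an.Yes
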